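import Mathlib

/-!
A nonempty compact subset of the real line without isolated points and with empty interior
is homeomorphic to the Cantor space and to the middle-thirds Cantor set.
-/

set_option autoImplicit false

open Set Filter Topology

namespace Pool.Agent.Lib.CantorChar

/-- compact, no isolated points, nonempty, empty interior -/
def Good (C : Set ℝ) : Prop :=
  IsCompact C ∧ Preperfect C ∧ C.Nonempty ∧ interior C = ∅

theorem Good.split {C : Set ℝ} (hC : Good C) :
    ∃ C0 C1 : Set ℝ, Good C0 ∧ Good C1 ∧ Disjoint C0 C1 ∧ C0 ∪ C1 = C ∧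
      ∀ d : ℝ, (∀ x ∈ C, ∀ y ∈ C, dist x y ≤ d) →
        (∀ x ∈ C0, ∀ y ∈ C0, dist x y ≤ 2 / 3 * d) ∧
        (∀ x ∈ C1, ∀ y ∈ C1, dist x y ≤ 2 / 3 * d) := by
  obtain ⟨hc, hp, hne, hint⟩ := hC
  obtain ⟨a, haC, ha⟩ := hc.exists_isLeast hne
  obtain ⟨b, hbC, hb⟩ := hc.exists_isGreatest hne
  have hab : a < b := by
    rcases lt_or_eq_of_le (ha hbC) with h | h
    · exact h
    · exfalso
      have hacc := hp a haC
      rw [accPt_iff_nhds] at hacc
      obtain ⟨y, ⟨-, hyC⟩, hya⟩ := hacc univ univ_mem
      exact hya (le_antisymm (h ▸ hb hyC) (ha hyC))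
  have hex : ∃ c ∈ Ioo (a + (b - a) / 3) (a + 2 * (b - a) / 3), c ∉ C := by
    by_contra hcon
    push Not at hcon
    have h1 : Ioo (a + (b - a) / 3) (a + 2 * (b - a) / 3) ⊆ interior C :=
      interior_maximal hcon isOpen_Ioo
    rw [hint] at h1
    have : (a + b) / 2 ∈ Ioo (a + (b - a) / 3) (a + 2 * (b - a) / 3) := by
      constructor <;> linarith
    exact h1 this
  obtain ⟨c, ⟨hc1, hc2⟩, hcC⟩ := hex
  have e0 : Iio c ∩ C = C ∩ Iic c := by
    ext x
    constructor
    · rintro ⟨h1, h2⟩
      exact ⟨h2, mem_Iic.2 (le_of_lt (mem_Iio.1 h1))⟩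
    · rintro ⟨h1, h2⟩
      refine ⟨mem_Iio.2 (lt_of_le_of_ne (mem_Iic.1 h2) ?_), h1⟩
      rintro rfl
      exact hcC h1
  have e1 : Ioi c ∩ C = C ∩ Ici c := by
    ext x
    constructor
    · rintro ⟨h1, h2⟩
      exact ⟨h2, mem_Ici.2 (le_of_lt (mem_Ioi.1 h1))⟩
    · rintro ⟨h1, h2⟩
      refine ⟨mem_Ioi.2 (lt_of_le_of_ne (mem_Ici.1 h2) ?_), h1⟩
      rintro rfl
      exact hcC h1
  refine ⟨Iio c ∩ C, Ioi c ∩ C, ⟨?_, hp.open_inter isOpen_Iio, ⟨a, ?_, haC⟩, ?_⟩,
    ⟨?_, hp.open_inter isOpen_Ioi, ⟨b, ?_, hbC⟩, ?_⟩, ?_, ?_, ?_⟩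
  · rw [e0]; exact hc.inter_right isClosed_Iic
  · show a < c
    linarith
  · exact eq_empty_of_subset_empty (hint ▸ interior_mono inter_subset_right)
  · rw [e1]; exact hc.inter_right isClosed_Ici
  · show c < b
    linarith
  · exact eq_empty_of_subset_empty (hint ▸ interior_mono inter_subset_right)
  · rw [Set.disjoint_left]
    rintro x ⟨h1, -⟩ ⟨h2, -⟩
    exact lt_asymm (show x < c from h1) (show c < x from h2)
  · ext x
    constructor
    · rintro (h | h) <;> exact h.2
    · intro hx
      rcases lt_trichotomy x c with h | h | h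
      · exact Or.inl ⟨h, hx⟩
      · exact absurd (h ▸ hx) hcC
      · exact Or.inr ⟨h, hx⟩
  · intro d hd
    have hd' : b - a ≤ d := by
      have := hd b hbC a haC
      rw [Real.dist_eq, abs_of_pos (by linarith)] at this
      exact this
    constructor
    · rintro x ⟨hx1, hx2⟩ y ⟨hy1, hy2⟩
      have := ha hx2
      have := ha hy2
      have : x < c := hx1
      have : y < c := hy1
      rw [Real.dist_eq, abs_le]
      constructor <;> linarith
    · rintro x ⟨hx1, hx2⟩ y ⟨hy1, hy2⟩
      have := hb hx2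
      have := hb hy2
      have : c < x := hx1
      have : c < y := hy1
      rw [Real.dist_eq, abs_le]
      constructor <;> linarith

open CantorScheme PiNat in
theorem Good.homeo_natBool {K : Set ℝ} (hK : Good K) : Nonempty ((ℕ → Bool) ≃ₜ K) := by
  classical
  choose C0 C1 h0 h1 hdisj hun hdiam using fun {C : Set ℝ} (hC : Good C) => hC.split
  let DP : List Bool → {C : Set ℝ // Good C} := fun l =>
    List.rec (motive := fun _ => {C : Set ℝ // Good C}) ⟨K, hK⟩
      (fun a _ ih => if a then ⟨C1 ih.2, h1 ih.2⟩ else ⟨C0 ih.2, h0 ih.2⟩) l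
  let D : List Bool → Set ℝ := fun l => (DP l).val
  have Dnil : D [] = K := rfl
  have Dfalse : ∀ l, D (false :: l) = C0 (DP l).2 := fun l => rfl
  have Dtrue : ∀ l, D (true :: l) = C1 (DP l).2 := fun l => rfl
  have hDun : ∀ l, D (false :: l) ∪ D (true :: l) = D l := fun l => hun (DP l).2
  have hanti : ClosureAntitone D := by
    refine CantorScheme.Antitone.closureAntitone ?_ fun l => (DP l).property.1.isClosed
    intro l a
    cases a
    · rw [← hDun l]; exact subset_union_left
    · rw [← hDun l]; exact subset_union_right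
  obtain ⟨d, hd⟩ : ∃ d : ℝ, ∀ x ∈ K, ∀ y ∈ K, dist x y ≤ d := by
    obtain ⟨d, hd⟩ := Metric.isBounded_iff.1 hK.1.isBounded
    exact ⟨d, fun x hx y hy => hd hx hy⟩
  have hdl : ∀ l : List Bool, ∀ x ∈ D l, ∀ y ∈ D l, dist x y ≤ (2 / 3) ^ l.length * d := by
    intro l
    induction l with
    | nil => simpa [Dnil] using hd
    | cons a l ih =>
      have := hdiam (DP l).2 _ ih
      have e : (2 / 3 : ℝ) ^ (a :: l).length * d = 2 / 3 * ((2 / 3) ^ l.length * d) := by
        simp [pow_succ]; ring
      rw [e]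
      cases a
      · exact this.1
      · exact this.2
  have hlim : Tendsto (fun n : ℕ => (2 / 3 : ℝ) ^ n * d) atTop (𝓝 0) := by
    have := (tendsto_pow_atTop_nhds_zero_of_lt_one (r := (2 / 3 : ℝ)) (by norm_num)
      (by norm_num)).mul_const d
    simpa using this
  have hvan : VanishingDiam D := by
    intro x
    have h2 : Tendsto (fun n : ℕ => ENNReal.ofReal ((2 / 3 : ℝ) ^ n * d)) atTop (𝓝 0) := by
      have := ENNReal.tendsto_ofReal hlim
      simpa using this
    refine tendsto_of_tendsto_of_tendsto_of_le_of_le tendsto_const_nhds h2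
      (fun _ => zero_le) ?_
    intro n
    have := Metric.ediam_le_of_forall_dist_le (hdl (res x n))
    rw [res_length] at this
    exact this
  have hdisj' : CantorScheme.Disjoint D := by
    rintro l (a | a) (b | b) hab <;> try contradiction
    · exact hdisj _
    · exact (hdisj _).symm
  have hdom : ∀ {x : ℕ → Bool}, x ∈ (inducedMap D).1 := fun {x} => by
    rw [hanti.map_of_vanishingDiam hvan fun l => (DP l).property.2.2.1]
    apply mem_univ
  let f : (ℕ → Bool) → K := fun x => ⟨(inducedMap D).2 ⟨x, hdom⟩, map_mem ⟨_, hdom⟩ 0⟩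
  have hfc : Continuous f := by
    apply Continuous.subtype_mk
    apply hvan.map_continuous.comp
    fun_prop
  have hfi : Function.Injective f := by
    intro x y hxy
    have h := congrArg Subtype.val hxy
    simpa only [← Subtype.val_inj] using hdisj'.map_injective h
  have hfs : Function.Surjective f := by
    rintro ⟨y, hy⟩
    let L : ℕ → List Bool := fun n =>
      Nat.rec (motive := fun _ => List Bool) []
        (fun _ l => (decide (y ∈ D (true :: l))) :: l) n
    let x : ℕ → Bool := fun n => decide (y ∈ D (true :: L n))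
    have hres : ∀ n, res x n = L n := by
      intro n
      induction n with
      | zero => rfl
      | succ n ih => rw [res_succ, ih]
    have hmem : ∀ n, y ∈ D (L n) := by
      intro n
      induction n with
      | zero => exact hy
      | succ n ih =>
        show y ∈ D ((decide (y ∈ D (true :: L n))) :: L n)
        by_cases h : y ∈ D (true :: L n)
        · simp [h]
        · rw [← hDun] at ih
          rcases ih with h' | h'
          · simpa [h] using h'
          · exact absurd h' h
    refine ⟨x, Subtype.ext ?_⟩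
    have hle : ∀ n, dist ((f x : K) : ℝ) y ≤ (2 / 3) ^ n * d := by
      intro n
      have h3 := hdl (res x n) _ (map_mem ⟨x, hdom⟩ n) y (by rw [hres]; exact hmem n)
      rw [res_length] at h3
      exact h3
    have : dist ((f x : K) : ℝ) y ≤ 0 := ge_of_tendsto' hlim hle
    exact dist_le_zero.1 this
  exact ⟨Continuous.homeoOfEquivCompactToT2 (f := Equiv.ofBijective f ⟨hfi, hfs⟩) hfc⟩

theorem homeo_cantorSet {K : Set ℝ} (hc : IsCompact K) (hp : Preperfect K) (hne : K.Nonempty)
    (hint : interior K = ∅) : Nonempty (K ≃ₜ cantorSet) := by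
  obtain ⟨e⟩ := Good.homeo_natBool ⟨hc, hp, hne, hint⟩
  exact ⟨e.symm.trans cantorSetHomeomorphNatToBool.symm⟩

end Pool.Agent.Lib.CantorChar
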